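import Pool.Agent.helper61.CSW.W.SpecW

/-!
# csw:NRP (MP_70a088_an, block W for class S): no periodic differential (helper95)
-/

set_option autoImplicit false

open Complex Metric Set Filter Topology MeasureTheory
open YPPS (fd fdd pre TT CV IsCyc rho Exact)
open MPS (BB)
open Pool.Agent.helper98.ILF (juliaSet fatouSet)

noncomputable section

open CSS (SE SV JJ)

namespace YW

lemma NRP_conn (P : Set ℂ) (hP : P.Finite) : IsPreconnected Pᶜ := by
  have h : 1 < Module.rank ℝ ℂ := by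
    rw [Complex.rank_real_complex]
    norm_num
  exact (hP.countable.isPathConnected_compl_of_one_lt_rank h).isConnected.isPreconnected

lemma NRP_ex (P C : Set ℂ) (q : ℂ → ℂ) (R : ℝ) (hP : P.Finite) (hq : DifferentiableOn ℂ q Pᶜ)
    (hC : C.Countable) (hne : ¬ ∀ᵐ z : ℂ, q z = 0) : ∃ z : ℂ, R < ‖z‖ ∧ z ∉ C ∧ q z ≠ 0 := by
  by_contra hcon
  push_neg at hcon
  apply hne
  set O : Set ℂ := {z | R < ‖z‖} ∩ Pᶜ with hO
  have hOo : IsOpen O := (isOpen_lt continuous_const continuous_norm).inter hP.isClosed.isOpen_compl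
  have hqc : ContinuousOn q O := hq.continuousOn.mono inter_subset_right
  have hz0 : ∀ w ∈ O, q w = 0 := by
    by_contra hw
    push_neg at hw
    obtain ⟨w, hwO, hw0⟩ := hw
    have hV : IsOpen (O ∩ q ⁻¹' {0}ᶜ) := hqc.isOpen_inter_preimage hOo isClosed_singleton.isOpen_compl
    have hd : Dense Cᶜ := hC.dense_compl ℝ
    obtain ⟨v, hv1, hv2⟩ := hd.inter_open_nonempty _ hV ⟨w, hwO, hw0⟩
    exact hv1.2 (hcon v hv1.1.1 hv2)
  obtain ⟨M, hM⟩ := hP.isBounded.exists_norm_le
  obtain ⟨z1, hz1⟩ : ∃ z1 : ℂ, max R M < ‖z1‖ := by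
    refine ⟨((|max R M| + 1 : ℝ) : ℂ), ?_⟩
    rw [Complex.norm_real, Real.norm_eq_abs, abs_of_nonneg (by positivity)]
    have := le_abs_self (max R M)
    linarith
  have hz1O : z1 ∈ O := by
    refine ⟨lt_of_le_of_lt (le_max_left _ _) hz1, fun h => ?_⟩
    exact absurd (hM z1 h) (not_le.2 (lt_of_le_of_lt (le_max_right _ _) hz1))
  have hA : AnalyticOnNhd ℂ q Pᶜ := hq.analyticOnNhd hP.isClosed.isOpen_compl
  have hE : q =ᶠ[𝓝 z1] 0 := by
    filter_upwards [hOo.mem_nhds hz1O] with w hw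
    exact hz0 w hw
  have hall := hA.eqOn_zero_of_preconnected_of_eventuallyEq_zero (NRP_conn P hP) hz1O.2 hE
  have hnull : ∀ᵐ z : ℂ, z ∈ Pᶜ := by
    rw [ae_iff]
    simp only [mem_compl_iff, not_not, setOf_mem_eq]
    exact hP.measure_zero _
  filter_upwards [hnull] with z hz
  exact hall hz

theorem NRP (hNRPA : NRPA_stmt) (hSMB : YPPS.SMB_stmt) (hRAX : CSS.RAX_stmt) (hLGB : CSS.LGB_stmt)
    (hNPL : CSS.NPL_stmt) : NRP_stmt := by
  intro f P q hP hq hDC hTT hDf
  by_contra hne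
  obtain ⟨κ₀, hκ, hN⟩ := hNRPA f P q hP hq hDC hTT hDf hne
  set N : Set ℂ := {y : ℂ | ¬ (q (f.eval y) * fd f y ^ 2 = κ₀ * q y)} with hNdef
  obtain ⟨R, -, hR⟩ := hRAX f
  have hRA := hR R le_rfl
  obtain ⟨a, ha⟩ := hNPL f R 0
  rw [pow_zero, mul_one] at ha
  obtain ⟨G, W₀, hLG, -, -, -⟩ := hLGB f R hRA a ha
  obtain ⟨z, hzR, hzC, hz0⟩ := NRP_ex P ((fun y => f.eval y) '' N ∪ CV f) q R hP hq
    ((hN.image _).union (YPPS.CV_fin f).countable) hne
  have hR1 : 0 < R := lt_of_lt_of_le one_pos hRA.one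
  have hzne : z ≠ 0 := by
    intro h
    rw [h, norm_zero] at hzR
    linarith
  -- the fibre is infinite
  have hW : ∀ n : ℤ, (Complex.log z + n * (2 * Real.pi * I)) ∈ CSS.HR R := by
    intro n
    show Real.log R < (Complex.log z + n * (2 * Real.pi * I)).re
    have h1 : (Complex.log z + n * (2 * Real.pi * I)).re = Real.log ‖z‖ := by
      rw [Complex.add_re, Complex.log_re]
      have : ((n : ℂ) * (2 * Real.pi * I)).re = 0 := by
        have h2 : (n : ℂ) * (2 * Real.pi * I) = ((n * (2 * Real.pi) : ℝ) : ℂ) * I := by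
          push_cast
          ring
        rw [h2, Complex.re_ofReal_mul, Complex.I_re, mul_zero]
      rw [this, add_zero]
    rw [h1]
    exact Real.log_lt_log hR1 hzR
  have hpre : ∀ n : ℤ, f.eval (Complex.exp (G (Complex.log z + n * (2 * Real.pi * I)))) = z := by
    intro n
    rw [hLG.eq _ (hW n), Complex.exp_add, Complex.exp_log hzne, Complex.exp_int_mul_two_pi_mul_I,
      mul_one]
  have hinf : Infinite (pre f z) := by
    apply Infinite.of_injective
      (fun n : ℤ => (⟨Complex.exp (G (Complex.log z + n * (2 * Real.pi * I))), hpre n⟩ : pre f z))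
    intro m n hmn
    have h1 : Complex.exp (G (Complex.log z + m * (2 * Real.pi * I))) =
        Complex.exp (G (Complex.log z + n * (2 * Real.pi * I))) := congrArg Subtype.val hmn
    have h2 := hLG.inj (hW m) (hW n) h1
    have h3 : (m : ℂ) * (2 * Real.pi * I) = n * (2 * Real.pi * I) := add_left_cancel h2
    have h4 : (m : ℂ) = n := mul_right_cancel₀ Complex.two_pi_I_ne_zero h3
    exact_mod_cast h4
  have hsum := (hSMB f q hDC z).2
  have hconst : (fun y : pre f z => ‖q y‖ / ‖fd f y‖ ^ 2) = fun _ => ‖q z‖ / κ₀ := by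
    funext y
    have hy : f.eval (y : ℂ) = z := y.2
    have hyN : (y : ℂ) ∉ N := fun h => hzC (Or.inl ⟨y, h, hy⟩)
    have h1 : q (f.eval y) * fd f y ^ 2 = κ₀ * q y := by
      by_contra hh
      exact hyN hh
    have h2 : fd f y ≠ 0 := YPPS.fd_ne_of f y (by rw [hy]; exact fun h => hzC (Or.inr h))
    have h3 : ‖q z‖ * ‖fd f y‖ ^ 2 = κ₀ * ‖q y‖ := by
      have := congrArg norm h1
      rw [norm_mul, norm_mul, norm_pow, hy, Complex.norm_real, Real.norm_eq_abs,
        abs_of_pos hκ] at this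
      exact this
    have h4 : ‖fd f y‖ ^ 2 ≠ 0 := pow_ne_zero _ (norm_ne_zero_iff.2 h2)
    rw [div_eq_div_iff h4 hκ.ne']
    linarith
  rw [hconst, summable_const_iff] at hsum
  have h5 : ‖q z‖ / κ₀ ≠ 0 := div_ne_zero (norm_ne_zero_iff.2 hz0) hκ.ne'
  exact h5 hsum

end YW
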